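import Mathlib
import Pool.Agent.MP_591151_lc.Defs

section

namespace Pool.Agent.MP_591151_lc

/-- finite colour preserving fixed point free involutive local isomorphisms -/
structure Loc {Γ I : Type} (adj : Γ → Γ → Prop) (col : Γ → I) where
  D : Finset Γ
  f : Γ → Γ
  mem : ∀ a ∈ D, f a ∈ D
  inv : ∀ a ∈ D, f (f a) = a
  ne : ∀ a ∈ D, f a ≠ a
  colp : ∀ a ∈ D, col (f a) = col a
  adjp : ∀ a ∈ D, ∀ b ∈ D, (adj (f a) (f b) ↔ adj a b)

theorem Loc.step {Γ I : Type} {adj : Γ → Γ → Prop} {col : Γ → I}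
    (hsymm : ∀ a b, adj a b → adj b a) (hirr : ∀ a, ¬ adj a a)
    (hext : ∀ (U W : Finset Γ) (v : Γ), ∃ z, z ∉ W ∧ col z = col v ∧ ∀ w ∈ W, (adj w z ↔ w ∈ U))
    (L : Loc adj col) (v : Γ) :
    ∃ L' : Loc adj col, v ∈ L'.D ∧ L.D ⊆ L'.D ∧ ∀ a ∈ L.D, L'.f a = L.f a := by
  classical
  by_cases hv : v ∈ L.D
  · exact ⟨L, hv, subset_rfl, fun _ _ => rfl⟩
  obtain ⟨z, hzW, hzc, hz⟩ := hext (L.D.filter fun w => adj (L.f w) v) (insert v L.D) v
  have hzv : z ≠ v := fun h => hzW (h ▸ Finset.mem_insert_self _ _)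
  have hzD : z ∉ L.D := fun h => hzW (Finset.mem_insert_of_mem h)
  have hz' : ∀ w ∈ L.D, (adj w z ↔ adj (L.f w) v) := by
    intro w hw
    rw [hz w (Finset.mem_insert_of_mem hw)]
    simp [hw]
  have hiff : ∀ a b, adj a b ↔ adj b a := fun a b => ⟨hsymm a b, hsymm b a⟩
  let g : Γ → Γ := fun a => if a = v then z else if a = z then v else L.f a
  have gv : g v = z := by simp [g]
  have gz : g z = v := by simp [g, hzv]
  have gD : ∀ a ∈ L.D, g a = L.f a := by
    intro a ha
    have h1 : a ≠ v := fun h => hv (h ▸ ha)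
    have h2 : a ≠ z := fun h => hzD (h ▸ ha)
    simp [g, h1, h2]
  refine ⟨⟨insert v (insert z L.D), g, ?_, ?_, ?_, ?_, ?_⟩, by simp, ?_, gD⟩
  · intro a ha
    simp only [Finset.mem_insert] at ha ⊢
    rcases ha with rfl | rfl | ha
    · simp [gv]
    · simp [gz]
    · rw [gD a ha]; exact Or.inr (Or.inr (L.mem a ha))
  · intro a ha
    simp only [Finset.mem_insert] at ha
    rcases ha with rfl | rfl | ha
    · rw [gv, gz]
    · rw [gz, gv]
    · rw [gD a ha, gD _ (L.mem a ha), L.inv a ha]
  · intro a ha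
    simp only [Finset.mem_insert] at ha
    rcases ha with rfl | rfl | ha
    · rw [gv]; exact hzv
    · rw [gz]; exact hzv.symm
    · rw [gD a ha]; exact L.ne a ha
  · intro a ha
    simp only [Finset.mem_insert] at ha
    rcases ha with rfl | rfl | ha
    · rw [gv]; exact hzc
    · rw [gz]; exact hzc.symm
    · rw [gD a ha]; exact L.colp a ha
  · have k1 : ∀ b ∈ L.D, (adj z (L.f b) ↔ adj v b) := by
      intro b hb
      rw [hiff, hz' _ (L.mem b hb), L.inv b hb, hiff]
    have k2 : ∀ b ∈ L.D, (adj v (L.f b) ↔ adj z b) := by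
      intro b hb
      rw [hiff z b, hz' b hb, hiff]
    intro a ha b hb
    simp only [Finset.mem_insert] at ha hb
    rcases ha with rfl | rfl | ha <;> rcases hb with hb | hb | hb
    · subst hb; rw [gv]; simp [hirr]
    · subst hb; rw [gv, gz]; exact hiff _ _
    · rw [gv, gD b hb]; exact k1 b hb
    · subst hb; rw [gv, gz]; exact hiff _ _
    · subst hb; rw [gz]; simp [hirr]
    · rw [gz, gD b hb]; exact k2 b hb
    · subst hb; rw [gv, gD a ha, hiff, k1 a ha, hiff]
    · subst hb; rw [gz, gD a ha, hiff, k2 a ha, hiff]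
    · rw [gD a ha, gD b hb]; exact L.adjp a ha b hb
  · intro a ha
    simp [ha]

/-- back and forth: a colour preserving fixed point free involutive automorphism -/
theorem exists_invol {Γ I : Type} [Countable Γ] [Nonempty Γ] {adj : Γ → Γ → Prop} {col : Γ → I}
    (hsymm : ∀ a b, adj a b → adj b a) (hirr : ∀ a, ¬ adj a a)
    (hext : ∀ (U W : Finset Γ) (v : Γ), ∃ z, z ∉ W ∧ col z = col v ∧ ∀ w ∈ W, (adj w z ↔ w ∈ U)) :
    ∃ f : Γ → Γ, (∀ a, f (f a) = a) ∧ (∀ a, f a ≠ a) ∧ (∀ a, col (f a) = col a) ∧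
      ∀ a b, (adj (f a) (f b) ↔ adj a b) := by
  classical
  obtain ⟨e, he⟩ := exists_surjective_nat Γ
  choose st h1 h2 h3 using Loc.step hsymm hirr hext
  let L0 : Loc adj col := ⟨∅, id, by simp, by simp, by simp, by simp, by simp⟩
  let L : ℕ → Loc adj col := fun n => Nat.rec L0 (fun k Lk => st Lk (e k)) n
  have Ls : ∀ n, L (n + 1) = st (L n) (e n) := fun n => rfl
  have mono : ∀ n m, n ≤ m → (L n).D ⊆ (L m).D ∧ ∀ a ∈ (L n).D, (L m).f a = (L n).f a := by
    intro n m hnm
    induction m, hnm using Nat.le_induction with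
    | base => exact ⟨subset_rfl, fun _ _ => rfl⟩
    | succ m hm ih =>
      refine ⟨ih.1.trans (by rw [Ls]; exact h2 _ _), fun a ha => ?_⟩
      rw [Ls, h3 _ _ a (ih.1 ha), ih.2 a ha]
  choose idx hidx using he
  have hmem : ∀ a, a ∈ (L (idx a + 1)).D := by
    intro a
    have := h1 (L (idx a)) (e (idx a))
    rw [Ls]
    convert this using 1
    exact (hidx a).symm
  let f : Γ → Γ := fun a => (L (idx a + 1)).f a
  have key : ∀ a n, a ∈ (L n).D → f a = (L n).f a := by
    intro a n ha
    rcases le_total n (idx a + 1) with h | h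
    · exact (mono _ _ h).2 a ha
    · exact ((mono _ _ h).2 a (hmem a)).symm
  refine ⟨f, fun a => ?_, fun a => (L (idx a + 1)).ne a (hmem a),
    fun a => (L (idx a + 1)).colp a (hmem a),
    fun a b => ?_⟩
  · have ha := hmem a
    rw [key (f a) (idx a + 1) ((L (idx a + 1)).mem a ha)]
    exact (L (idx a + 1)).inv a ha
  · have ha : a ∈ (L (max (idx a + 1) (idx b + 1))).D := (mono _ _ (le_max_left _ _)).1 (hmem a)
    have hb : b ∈ (L (max (idx a + 1) (idx b + 1))).D := (mono _ _ (le_max_right _ _)).1 (hmem b)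
    rw [key a _ ha, key b _ hb]
    exact (L _).adjp a ha b hb

end Pool.Agent.MP_591151_lc

end

section

namespace Pool.Agent.MP_591151_lc

/-- the adjacency pattern of the vertex with code `k` to the `m`-th point of the ray -/
def pat (r : ℕ → Bool) (k m : ℕ) : Prop :=
  (Nat.unpair m).1 = k ∧
    ((Nat.unpair (Nat.unpair m).2).1 = 0 ∨ r ((Nat.unpair (Nat.unpair m).2).1 - 1) = true)

theorem le_pair3 (a i j : ℕ) : j ≤ Nat.pair a (Nat.pair i j) :=
  (Nat.right_le_pair i j).trans (Nat.right_le_pair a _)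

theorem pat_inj {r r' : ℕ → Bool} {k k' : ℕ}
    (h : ∀ m, k ≤ m → k' ≤ m → (pat r k m ↔ pat r' k' m)) : k = k' ∧ r = r' := by
  have h1 : k = k' := by
    have := (h (Nat.pair k (Nat.pair 0 (k + k'))) (le_trans (by omega) (le_pair3 _ _ _))
      (le_trans (by omega) (le_pair3 _ _ _))).1 (by simp [pat])
    simpa [pat] using this
  subst h1
  refine ⟨rfl, funext fun n => ?_⟩
  have := h (Nat.pair k (Nat.pair (n + 1) k)) (le_pair3 _ _ _) (le_pair3 _ _ _)
  simp only [pat, Nat.unpair_pair, true_and, Nat.add_eq_zero_iff, one_ne_zero, and_false,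
    false_or, Nat.add_sub_cancel] at this
  exact Bool.eq_iff_iff.2 this

theorem pat_ex (r : ℕ → Bool) (k : ℕ) : ∃ m, k ≤ m ∧ pat r k m :=
  ⟨Nat.pair k (Nat.pair 0 k), le_pair3 _ _ _, by simp [pat]⟩

/-- a ray in a graph with the extension property, with prescribed traces -/
theorem exists_ray {Γ : Type} [Denumerable Γ] {adj : Γ → Γ → Prop}
    (hext : ∀ (U W : Finset Γ), ∃ z, z ∉ W ∧ ∀ w ∈ W, (adj w z ↔ w ∈ U)) (r : ℕ → Bool) :
    ∃ p : ℕ → Γ, Function.Injective p ∧ (∀ n m, n < m → (adj (p n) (p m) ↔ n + 1 = m)) ∧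
      (∀ m, p m ≠ Denumerable.ofNat Γ 0) ∧
      ∀ u, u ∉ Set.range p → ∀ m, Encodable.encode u ≤ m →
        (adj u (p m) ↔ pat r (Encodable.encode u) m) := by
  classical
  choose z hz1 hz2 using hext
  let W : ℕ → (ℕ → Γ) → Finset Γ := fun m q =>
    (Finset.range m).image q ∪ (Finset.range (m + 1)).image (Denumerable.ofNat Γ)
  let U : ℕ → (ℕ → Γ) → Finset Γ := fun m q =>
    (W m q).filter fun w => (0 < m ∧ w = q (m - 1)) ∨
      (w ∉ (Finset.range m).image q ∧ pat r (Encodable.encode w) m)
  let s : ℕ → (ℕ → Γ) := fun n => Nat.rec (fun _ => Denumerable.ofNat Γ 0)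
    (fun m q => Function.update q m (z (U m q) (W m q))) n
  have hs : ∀ m, s (m + 1) = Function.update (s m) m (z (U m (s m)) (W m (s m))) := fun m => rfl
  let p : ℕ → Γ := fun m => z (U m (s m)) (W m (s m))
  have hsp : ∀ m n, n < m → s m n = p n := by
    intro m
    induction m with
    | zero => intro n hn; omega
    | succ m ih =>
      intro n hn
      rw [hs]
      by_cases h : n = m
      · subst h; simp [p]
      · rw [Function.update_of_ne h]; exact ih n (by omega)
  have himg : ∀ m, (Finset.range m).image (s m) = (Finset.range m).image p := by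
    intro m
    exact Finset.image_congr fun n hn => hsp m n (by simpa using hn)
  have hW : ∀ m, W m (s m) =
      (Finset.range m).image p ∪ (Finset.range (m + 1)).image (Denumerable.ofNat Γ) := by
    intro m; simp only [W, himg]
  have hpW : ∀ m, p m ∉ W m (s m) := fun m => hz1 _ _
  have hlt : ∀ n m, n < m → p n ≠ p m := by
    intro n m hnm h
    apply hpW m
    rw [hW, ← h]
    exact Finset.mem_union_left _ (Finset.mem_image_of_mem _ (by simpa using hnm))
  have hinj : Function.Injective p := by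
    intro n m h
    rcases lt_trichotomy n m with h' | h' | h'
    · exact absurd h (hlt n m h')
    · exact h'
    · exact absurd h.symm (hlt m n h')
  have hU : ∀ m w, w ∈ W m (s m) → (adj w (p m) ↔ ((0 < m ∧ w = p (m - 1)) ∨
      (w ∉ (Finset.range m).image p ∧ pat r (Encodable.encode w) m))) := by
    intro m w hw
    rw [hz2 (U m (s m)) (W m (s m)) w hw]
    simp only [U, Finset.mem_filter, hw, true_and, himg]
    refine or_congr (and_congr_right fun hm => ?_) Iff.rfl
    rw [hsp m (m - 1) (by omega)]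
  refine ⟨p, hinj, fun n m hnm => ?_, fun m h => ?_, fun u hu m hm => ?_⟩
  · have hn : p n ∈ (Finset.range m).image p := Finset.mem_image_of_mem _ (by simpa using hnm)
    rw [hU m (p n) (by rw [hW]; exact Finset.mem_union_left _ hn)]
    simp only [hn, not_true_eq_false, false_and, or_false, hinj.eq_iff]
    omega
  · apply hpW m
    rw [hW, h]
    exact Finset.mem_union_right _ (Finset.mem_image_of_mem _ (by simp))
  · have huW : u ∈ W m (s m) := by
      rw [hW]
      refine Finset.mem_union_right _ (Finset.mem_image.2 ⟨Encodable.encode u, ?_, by simp⟩)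
      simp only [Finset.mem_range]; omega
    rw [hU m u huW]
    have h1 : ¬ (0 < m ∧ u = p (m - 1)) := fun h => hu ⟨m - 1, h.2.symm⟩
    have h2 : u ∉ (Finset.range m).image p := by
      intro h
      obtain ⟨n, _, hn⟩ := Finset.mem_image.1 h
      exact hu ⟨n, hn⟩
    simp [h1, h2]

/-- a disjoint union of at most continuum many copies of a countable graph with the
extension property has a distinguishing two-colouring -/
theorem exists_two_colouring {Q Γ : Type} [Denumerable Γ] {adj : Γ → Γ → Prop}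
    (hsymm : ∀ a b, adj a b → adj b a) (hirr : ∀ a, ¬ adj a a)
    (hext : ∀ (U W : Finset Γ), ∃ z, z ∉ W ∧ ∀ w ∈ W, (adj w z ↔ w ∈ U))
    (ρ : Q → (ℕ → Bool)) (hρ : Function.Injective ρ) (H : SimpleGraph (Q × Γ))
    (hH : ∀ x y, H.Adj x y ↔ x.1 = y.1 ∧ adj x.2 y.2) :
    ∃ c : Q × Γ → Bool, IsDistinguishing H c := by
  classical
  choose p hinj hray h0 htr using exists_ray hext
  let P : Q → ℕ → Q × Γ := fun q m => (q, p (ρ q) m)
  have hPadj : ∀ q n q' m, H.Adj (P q n) (P q' m) ↔ q = q' ∧ (n + 1 = m ∨ m + 1 = n) := by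
    intro q n q' m
    rw [hH]
    refine and_congr_right fun hq => ?_
    have hq' : q = q' := hq
    subst hq'
    show adj (p (ρ q) n) (p (ρ q) m) ↔ _
    rcases lt_trichotomy n m with h | h | h
    · rw [hray _ n m h]; omega
    · subst h; simp [hirr]
    · rw [show adj (p (ρ q) n) (p (ρ q) m) ↔ adj (p (ρ q) m) (p (ρ q) n) from
        ⟨hsymm _ _, hsymm _ _⟩, hray _ m n h]; omega
  have hPinj : ∀ q n q' m, P q n = P q' m → q = q' ∧ n = m := by
    intro q n q' m h
    have h1 : q = q' := congrArg Prod.fst h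
    subst h1
    exact ⟨rfl, hinj _ (congrArg Prod.snd h)⟩
  let c : Q × Γ → Bool := fun x => decide (x.2 ∈ Set.range (p (ρ x.1)))
  have hc : ∀ x, c x = true ↔ ∃ q m, x = P q m := by
    intro x
    simp only [c, decide_eq_true_eq]
    constructor
    · rintro ⟨m, hm⟩
      exact ⟨x.1, m, Prod.ext rfl hm.symm⟩
    · rintro ⟨q, m, rfl⟩
      exact ⟨m, rfl⟩
  refine ⟨c, fun φ hφ => ?_⟩
  have hφs : ∀ x, c (φ.symm x) = c x := by
    intro x
    have := hφ (φ.symm x)
    rw [RelIso.apply_symm_apply] at this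
    exact this.symm
  have hfw : ∀ q m, ∃ q' m', φ (P q m) = P q' m' := fun q m =>
    (hc _).1 (by rw [hφ]; exact (hc _).2 ⟨q, m, rfl⟩)
  have hbw : ∀ q m, ∃ q' m', φ (P q' m') = P q m := by
    intro q m
    obtain ⟨q', m', h⟩ := (hc (φ.symm (P q m))).1 (by rw [hφs]; exact (hc _).2 ⟨q, m, rfl⟩)
    exact ⟨q', m', by rw [← h, RelIso.apply_symm_apply]⟩
  have hstart : ∀ q, ∃ q', φ (P q 0) = P q' 0 := by
    intro q
    obtain ⟨q', k, hk⟩ := hfw q 0
    refine ⟨q', ?_⟩
    rcases Nat.eq_zero_or_pos k with rfl | hpos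
    · exact hk
    exfalso
    obtain ⟨q1, m1, h1⟩ := hbw q' (k - 1)
    obtain ⟨q2, m2, h2⟩ := hbw q' (k + 1)
    have a1 : H.Adj (P q 0) (P q1 m1) := by
      rw [← φ.map_adj_iff, hk, h1, hPadj]; exact ⟨rfl, by omega⟩
    have a2 : H.Adj (P q 0) (P q2 m2) := by
      rw [← φ.map_adj_iff, hk, h2, hPadj]; exact ⟨rfl, by omega⟩
    rw [hPadj] at a1 a2
    obtain ⟨rfl, a1⟩ := a1
    obtain ⟨rfl, a2⟩ := a2
    have e1 : m1 = 1 := by omega
    have e2 : m2 = 1 := by omega
    subst e1 e2
    have := (hPinj _ _ _ _ (h1.symm.trans h2)).2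
    omega
  have hall : ∀ q q', φ (P q 0) = P q' 0 → ∀ m, φ (P q m) = P q' m := by
    intro q q' h00 m
    induction m using Nat.strong_induction_on with
    | _ m ih =>
      rcases Nat.eq_zero_or_pos m with rfl | hpos
      · exact h00
      obtain ⟨q1, k, hk⟩ := hfw q m
      have hprev := ih (m - 1) (by omega)
      have a1 : H.Adj (P q' (m - 1)) (P q1 k) := by
        rw [← hprev, ← hk, φ.map_adj_iff, hPadj]; exact ⟨rfl, by omega⟩
      rw [hPadj] at a1
      obtain ⟨rfl, a1⟩ := a1
      rcases a1 with a1 | a1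
      · rw [hk]; congr 1; omega
      · exfalso
        have h2 := ih k (by omega)
        have := (hPinj _ _ _ _ (φ.injective (h2.trans hk.symm))).2
        omega
  have hnon : ∀ q q', (∀ m, φ (P q m) = P q' m) → ∀ u, u ∉ Set.range (p (ρ q)) →
      q = q' ∧ φ (q, u) = (q, u) := by
    intro q q' hq u hu
    obtain ⟨m0, hm0, hp0⟩ := pat_ex (ρ q) (Encodable.encode u)
    have a0 : H.Adj (q, u) (P q m0) := (hH _ _).2 ⟨rfl, (htr _ u hu m0 hm0).2 hp0⟩
    have a1 : H.Adj (φ (q, u)) (P q' m0) := by rw [← hq, φ.map_adj_iff]; exact a0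
    have e1 : (φ (q, u)).1 = q' := ((hH _ _).1 a1).1
    have hu' : (φ (q, u)).2 ∉ Set.range (p (ρ q')) := by
      intro h
      have : c (φ (q, u)) = true := by
        simp only [c, decide_eq_true_eq, e1]; exact h
      rw [hφ] at this
      simp only [c, decide_eq_true_eq] at this
      exact hu this
    have hpat := pat_inj (r := ρ q) (r' := ρ q') (k := Encodable.encode u)
      (k' := Encodable.encode (φ (q, u)).2) (by
        intro m hm hm'
        rw [← htr _ u hu m hm, ← htr _ _ hu' m hm']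
        have := φ.map_adj_iff (v := (q, u)) (w := P q m)
        rw [hq, hH, hH] at this
        simpa [P, e1] using this.symm)
    have hqq : q = q' := hρ hpat.2
    refine ⟨hqq, Prod.ext (e1.trans hqq.symm) ?_⟩
    exact (Encodable.encode_injective hpat.1).symm
  rintro ⟨q, u⟩
  obtain ⟨q', hq'⟩ := hstart q
  have hq := hall q q' hq'
  have hqq : q = q' := (hnon q q' hq (Denumerable.ofNat Γ 0)
    (fun ⟨m, hm⟩ => h0 _ m hm)).1
  subst hqq
  by_cases hu : u ∈ Set.range (p (ρ q))
  · obtain ⟨m, rfl⟩ := hu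
    exact hq m
  · exact (hnon q q hq u hu).2

end Pool.Agent.MP_591151_lc

end

section

namespace Pool.Agent.MP_591151_lc

open Set Filter

/-- flip the bits in a finite set -/
def flipBits (s : Finset ℕ) (x : ℕ → Bool) : ℕ → Bool := fun i => xor (x i) (decide (i ∈ s))

theorem flipBits_flipBits (s t : Finset ℕ) (x : ℕ → Bool) :
    flipBits s (flipBits t x) = flipBits (symmDiff s t) x := by
  funext i
  by_cases hs : i ∈ s <;> by_cases ht : i ∈ t <;> simp [flipBits, Finset.mem_symmDiff, hs, ht]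

theorem flipBits_empty (x : ℕ → Bool) : flipBits ∅ x = x := by
  funext i; simp [flipBits]

theorem flipBits_self (s : Finset ℕ) (x : ℕ → Bool) : flipBits s (flipBits s x) = x := by
  rw [flipBits_flipBits, symmDiff_self]; exact flipBits_empty x

theorem flipBits_inj {s t : Finset ℕ} {x : ℕ → Bool} (h : flipBits s x = flipBits t x) :
    s = t := by
  ext i
  have := congrFun h i
  by_cases hs : i ∈ s <;> by_cases ht : i ∈ t <;> simp_all [flipBits]

theorem continuous_flipBits (s : Finset ℕ) : Continuous (flipBits s) := by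
  refine continuous_pi fun i => ?_
  exact (continuous_of_discreteTopology (f := fun b : Bool => xor b (decide (i ∈ s)))).comp
    (continuous_apply i)

/-- flipping as a homeomorphism -/
def flipHomeo (s : Finset ℕ) : (ℕ → Bool) ≃ₜ (ℕ → Bool) where
  toFun := flipBits s
  invFun := flipBits s
  left_inv := flipBits_self s
  right_inv := flipBits_self s
  continuous_toFun := continuous_flipBits s
  continuous_invFun := continuous_flipBits s

/-- an enumeration of finite families of finite sets with infinite repetition -/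
def dec (N : ℕ) : Finset (Finset ℕ) := Denumerable.ofNat (Finset (Finset ℕ)) (Nat.unpair N).1

theorem dec_surj (F : Finset (Finset ℕ)) (k : ℕ) : ∃ N, k ≤ N ∧ dec N = F := by
  obtain ⟨a, ha⟩ := (Denumerable.eqv (Finset (Finset ℕ))).symm.surjective F
  exact ⟨Nat.pair a k, Nat.right_le_pair _ _, by rw [dec, Nat.unpair_pair]; exact ha⟩

/-- the connection set -/
def conn : Set (Finset ℕ) := {s | ∃ N, ∃ A ∈ dec N, (∀ i ∈ A, i < N) ∧ s = insert N A}

theorem empty_not_mem_conn : ∅ ∉ conn := by
  rintro ⟨N, A, -, -, h⟩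
  exact Finset.insert_ne_empty N A h.symm

theorem insert_mem_conn {N : ℕ} {B : Finset ℕ} (hB : ∀ i ∈ B, i < N) :
    insert N B ∈ conn ↔ B ∈ dec N := by
  constructor
  · rintro ⟨N', A, hA, hlt, h⟩
    have h1 : N ∈ insert N' A := h ▸ Finset.mem_insert_self _ _
    have h2 : N' ∈ insert N B := h.symm ▸ Finset.mem_insert_self _ _
    have hN : N = N' := by
      rcases Finset.mem_insert.1 h1 with h1 | h1
      · exact h1
      rcases Finset.mem_insert.1 h2 with h2 | h2
      · exact h2.symm
      have := hlt _ h1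
      have := hB _ h2
      omega
    subst hN
    have hA' : N ∉ A := fun h => lt_irrefl _ (hlt _ h)
    have hB' : N ∉ B := fun h => lt_irrefl _ (hB _ h)
    have : B = A := by
      rw [← Finset.erase_insert hA', ← h, Finset.erase_insert hB']
    rwa [this]
  · intro h
    exact ⟨N, B, h, hB, rfl⟩

/-- the dense extension property -/
theorem conn_ext (U W : Finset (Finset ℕ)) (t : Finset ℕ) (k : ℕ) :
    ∃ z, z ∉ W ∧ (∀ i < k, (i ∈ z ↔ i ∈ t)) ∧ ∀ w ∈ W, (symmDiff w z ∈ conn ↔ w ∈ U) := by
  obtain ⟨N, hN, hdec⟩ := dec_surj (U.image fun u => symmDiff u t)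
    (k + (W.sup fun w => w.sup id) + t.sup id + 1)
  have hW : ∀ w ∈ W, ∀ i ∈ w, i < N := by
    intro w hw i hi
    have h1 : i ≤ w.sup id := Finset.le_sup (f := id) hi
    have h2 : w.sup id ≤ W.sup fun w => w.sup id := Finset.le_sup (f := fun w => w.sup id) hw
    omega
  have ht : ∀ i ∈ t, i < N := by
    intro i hi
    have h1 : i ≤ t.sup id := Finset.le_sup (f := id) hi
    omega
  refine ⟨insert N t, fun h => lt_irrefl _ (hW _ h N (Finset.mem_insert_self _ _)), ?_, ?_⟩
  · intro i hi
    have : i ≠ N := by omega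
    simp [this]
  · intro w hw
    have hNw : N ∉ w := fun h => lt_irrefl _ (hW _ hw N h)
    have hNt : N ∉ t := fun h => lt_irrefl _ (ht N h)
    have e : symmDiff w (insert N t) = insert N (symmDiff w t) := by
      ext i
      by_cases hi : i = N
      · subst hi; simp [Finset.mem_symmDiff, hNw]
      · simp [Finset.mem_symmDiff, hi]
    rw [e, insert_mem_conn, hdec]
    · simp only [Finset.mem_image]
      constructor
      · rintro ⟨u, hu, h⟩
        rwa [← symmDiff_left_inj.1 h]
      · intro h; exact ⟨w, h, rfl⟩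
    · intro i hi
      rcases Finset.mem_symmDiff.1 hi with h | h
      · exact hW w hw i h.1
      · exact ht i h.1

/-- the Borel graph -/
def graph : SimpleGraph (ℕ → Bool) where
  Adj x y := ∃ s ∈ conn, y = flipBits s x
  symm := ⟨fun x y ⟨s, hs, h⟩ => ⟨s, hs, by rw [h, flipBits_self]⟩⟩
  loopless := ⟨fun x ⟨s, hs, h⟩ => by
    have : s = ∅ := flipBits_inj (x := x) (by rw [← h, flipBits_empty])
    exact empty_not_mem_conn (this ▸ hs)⟩

theorem measurableSet_graph : MeasurableSet {p : (ℕ → Bool) × (ℕ → Bool) | graph.Adj p.1 p.2} := by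
  have : {p : (ℕ → Bool) × (ℕ → Bool) | graph.Adj p.1 p.2} =
      ⋃ s ∈ conn, {p : (ℕ → Bool) × (ℕ → Bool) | p.2 = flipBits s p.1} := by
    ext p; simp [graph]
  rw [this]
  refine MeasurableSet.biUnion (Set.to_countable _) fun s _ => ?_
  exact (isClosed_eq continuous_snd ((continuous_flipBits s).comp continuous_fst)).measurableSet

/-- eventual equality -/
def orb : Setoid (ℕ → Bool) where
  r x y := ∃ s, y = flipBits s x
  iseqv := ⟨fun x => ⟨∅, (flipBits_empty x).symm⟩,
    fun ⟨s, h⟩ => ⟨s, by rw [h, flipBits_self]⟩,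
    fun ⟨s, h⟩ ⟨t, h'⟩ => ⟨symmDiff t s, by rw [h', h, flipBits_flipBits]⟩⟩

/-- coordinates -/
noncomputable def coord (y : Quotient orb × Finset ℕ) : ℕ → Bool := flipBits y.2 y.1.out

theorem mk_coord (y : Quotient orb × Finset ℕ) : Quotient.mk orb (coord y) = y.1 := by
  conv_rhs => rw [← Quotient.out_eq y.1]
  exact (Quotient.sound (s := orb) ⟨y.2, rfl⟩).symm

theorem coord_bij : Function.Bijective coord := by
  constructor
  · rintro ⟨q, s⟩ ⟨q', t⟩ h
    have h1 : q = q' := by
      have := mk_coord (q, s)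
      rw [h, mk_coord] at this
      exact this.symm
    subst h1
    exact Prod.ext rfl (flipBits_inj h)
  · intro x
    obtain ⟨s, hs⟩ : orb.r (Quotient.mk orb x).out x := Quotient.mk_out (s := orb) x
    exact ⟨(Quotient.mk orb x, s), hs.symm⟩

theorem adj_coord (y z : Quotient orb × Finset ℕ) :
    graph.Adj (coord y) (coord z) ↔ y.1 = z.1 ∧ symmDiff y.2 z.2 ∈ conn := by
  obtain ⟨q, a⟩ := y
  obtain ⟨q', b⟩ := z
  constructor
  · rintro ⟨s, hs, h⟩
    have h1 : q = q' := by
      have := Quotient.sound (s := orb) (a := coord (q, a)) (b := coord (q', b)) ⟨s, h⟩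
      rwa [mk_coord, mk_coord] at this
    subst h1
    refine ⟨rfl, ?_⟩
    simp only [coord, flipBits_flipBits] at h
    have := flipBits_inj h
    subst this
    simpa [symmDiff_comm s a, ← symmDiff_assoc] using hs
  · rintro ⟨h1, h2⟩
    have h1' : q = q' := h1
    subst h1'
    refine ⟨symmDiff a b, h2, ?_⟩
    simp only [coord, flipBits_flipBits]
    rw [symmDiff_comm a b, symmDiff_assoc, symmDiff_self, symmDiff_bot]

/-- the graph in coordinates -/
noncomputable def graph' : SimpleGraph (Quotient orb × Finset ℕ) := graph.comap coord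

/-- the isomorphism -/
noncomputable def iso : graph' ≃g graph where
  toEquiv := Equiv.ofBijective coord coord_bij
  map_rel_iff' := Iff.rfl

theorem IsDistinguishing.transport {X Y I : Type} {G : SimpleGraph X} {H : SimpleGraph Y}
    (e : G ≃g H) {c : X → I} (hc : IsDistinguishing G c) :
    IsDistinguishing H (fun y => c (e.symm y)) := by
  intro φ hφ y
  have := hc ((e.trans φ).trans e.symm) (fun x => by
    have := hφ (e x)
    simpa using this) (e.symm y)
  simpa using this

theorem exists_two : ∃ c : (ℕ → Bool) → Bool, IsDistinguishing graph c := by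
  obtain ⟨c, hc⟩ := exists_two_colouring (Q := Quotient orb) (Γ := Finset ℕ)
    (adj := fun a b => symmDiff a b ∈ conn) (fun a b h => by rwa [symmDiff_comm])
    (fun a h => empty_not_mem_conn (by simpa using h))
    (fun U W => by
      obtain ⟨z, h1, -, h2⟩ := conn_ext U W ∅ 0
      exact ⟨z, h1, h2⟩)
    Quotient.out Quotient.out_injective graph' (fun x y => adj_coord x y)
  exact ⟨_, hc.transport iso⟩

theorem exists_generic {I : Type} [Countable I] [MeasurableSpace I] [MeasurableSingletonClass I]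
    {c : (ℕ → Bool) → I} (hc : Measurable c) :
    ∃ x : ℕ → Bool, ∀ s : Finset ℕ, ∃ k : ℕ, ∀ t : Finset ℕ, (∀ i < k, (i ∈ t ↔ i ∈ s)) →
      c (flipBits t x) = c (flipBits s x) := by
  have h1 : ∀ i : I, ∃ O : Set (ℕ → Bool), IsOpen O ∧ (c ⁻¹' {i}) =ᶠ[residual _] O :=
    fun i => (hc (measurableSet_singleton i)).residualEq_isOpen
  choose O hO hres using h1
  have h2 : ∀ᶠ x in residual (ℕ → Bool), ∀ i, (c x = i ↔ x ∈ O i) := by
    rw [eventually_countable_forall]
    intro i
    exact (Filter.eventuallyEq_set.1 (hres i)).mono fun x hx => by simpa using hx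
  have h3 : ∀ᶠ x in residual (ℕ → Bool), ∀ s : Finset ℕ, ∀ i,
      (c (flipBits s x) = i ↔ flipBits s x ∈ O i) := by
    rw [eventually_countable_forall]
    intro s
    exact (tendsto_residual_of_isOpenMap (flipHomeo s).continuous (flipHomeo s).isOpenMap).eventually h2
  obtain ⟨x, hx⟩ := (dense_of_mem_residual h3).nonempty
  refine ⟨x, fun s => ?_⟩
  have hs : flipBits s x ∈ O (c (flipBits s x)) := (hx s _).1 rfl
  obtain ⟨J, u, hu, hsub⟩ := isOpen_pi_iff.1 (hO _) _ hs
  refine ⟨J.sup id + 1, fun t ht => (hx t _).2 (hsub fun i hi => ?_)⟩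
  have hi' : i ≤ J.sup id := Finset.le_sup (f := id) hi
  have : flipBits t x i = flipBits s x i := by
    simp only [flipBits, ht i (by omega)]
  rw [this]
  exact (hu i hi).2

theorem not_distinguishing {I : Type} [Countable I] [MeasurableSpace I]
    [MeasurableSingletonClass I] {c : (ℕ → Bool) → I} (hc : Measurable c) :
    ¬ IsDistinguishing graph c := by
  classical
  intro hd
  obtain ⟨x, hx⟩ := exists_generic hc
  obtain ⟨⟨q, a⟩, rfl⟩ := coord_bij.2 x
  have hloc : ∀ s : Finset ℕ, ∃ k : ℕ, ∀ t : Finset ℕ, (∀ i < k, (i ∈ t ↔ i ∈ s)) →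
      c (coord (q, t)) = c (coord (q, s)) := by
    intro s
    obtain ⟨k, hk⟩ := hx (symmDiff s a)
    refine ⟨k, fun t ht => ?_⟩
    have := hk (symmDiff t a) (fun i hi => by simp [Finset.mem_symmDiff, ht i hi])
    simpa [coord, flipBits_flipBits, symmDiff_assoc] using this
  obtain ⟨f, hf1, hf2, hf3, hf4⟩ := exists_invol (Γ := Finset ℕ)
    (adj := fun a b => symmDiff a b ∈ conn) (col := fun s => c (coord (q, s)))
    (fun a b h => by rwa [symmDiff_comm])
    (fun a h => empty_not_mem_conn (by simpa using h))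
    (fun U W v => by
      obtain ⟨k, hk⟩ := hloc v
      obtain ⟨z, h1, h2, h3⟩ := conn_ext U W v k
      exact ⟨z, h1, hk z h2, h3⟩)
  let g : Quotient orb × Finset ℕ → Quotient orb × Finset ℕ :=
    fun y => (y.1, if y.1 = q then f y.2 else y.2)
  have hg : Function.Involutive g := by
    rintro ⟨q', s⟩
    by_cases h : q' = q <;> simp [g, h, hf1]
  let ψ : graph' ≃g graph' :=
    { toEquiv := hg.toPerm
      map_rel_iff' := by
        rintro ⟨q1, s⟩ ⟨q2, t⟩
        show graph.Adj (coord (g (q1, s))) (coord (g (q2, t))) ↔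
          graph.Adj (coord (q1, s)) (coord (q2, t))
        rw [adj_coord, adj_coord]
        refine and_congr_right fun h => ?_
        have h' : q1 = q2 := h
        subst h'
        by_cases h1 : q1 = q <;> simp [g, h1, hf4] }
  have hd' := hd.transport iso.symm
  have := hd' ψ (by
    rintro ⟨q', s⟩
    show c (coord (g (q', s))) = c (coord (q', s))
    by_cases h : q' = q
    · subst h; simp [g, hf3]
    · simp [g, h]) (q, ∅)
  have h2 : g (q, ∅) = (q, ∅) := this
  apply hf2 ∅
  simpa [g] using h2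

theorem mk_cantor : Cardinal.mk (ℕ → Bool) = Cardinal.continuum := by
  simp

theorem borelDistNumber_graph : borelDistNumber graph = Cardinal.continuum := by
  have : {κ : Cardinal.{0} | ∃ (I : Type) (_ : MeasurableSpace I) (_ : StandardBorelSpace I)
      (c : (ℕ → Bool) → I), Measurable c ∧ IsDistinguishing graph c ∧ Cardinal.mk I = κ} =
      {Cardinal.continuum} := by
    ext κ
    constructor
    · rintro ⟨I, _, _, c, hc, hd, rfl⟩
      by_cases hI : Countable I
      · exact absurd hd (not_distinguishing hc)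
      · rw [Set.mem_singleton_iff, ← mk_cantor]
        exact Cardinal.mk_congr (PolishSpace.measurableEquivNatBoolOfNotCountable hI).toEquiv
    · rintro rfl
      exact ⟨ℕ → Bool, inferInstance, inferInstance, id, measurable_id, fun φ h => h, mk_cantor⟩
  rw [borelDistNumber, this, csInf_singleton]

theorem distNumber_graph : distNumber graph = 2 := by
  obtain ⟨c, hc⟩ := exists_two
  refine IsLeast.csInf_eq ⟨⟨Bool, c, hc, by simp⟩, ?_⟩
  rintro κ ⟨I, d, hd, rfl⟩
  by_contra hlt
  have hsub : Subsingleton I := by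
    rw [← Cardinal.le_one_iff_subsingleton]
    by_contra h
    exact hlt (Cardinal.two_le_iff_one_lt.2 (lt_of_not_ge h))
  refine not_distinguishing (c := fun _ => ()) measurable_const fun φ _ => ?_
  exact hd φ fun x => Subsingleton.elim _ _

theorem main : ∃ (X : Type) (_ : MeasurableSpace X) (_ : StandardBorelSpace X) (G : SimpleGraph X),
    MeasurableSet {p : X × X | G.Adj p.1 p.2} ∧ distNumber G = 2 ∧
      borelDistNumber G = Cardinal.continuum :=
  ⟨ℕ → Bool, inferInstance, inferInstance, graph, measurableSet_graph, distNumber_graph,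
    borelDistNumber_graph⟩

end Pool.Agent.MP_591151_lc

end
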